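import Pool.Agent.H37.WR.Final

/-!
# Trees of every even diameter at least four with only rational Wiener roots

`wiener G` is the Wiener polynomial of `G`: the sum of `X ^ d(u, v)` over all unordered pairs of
distinct vertices.  For every even `D ≥ 4` there is a finite tree of diameter exactly `D` all of
whose Wiener roots are rational.  In particular there are such trees of arbitrarily large
diameter.
-/

namespace Pool.Agent.Results.MP_96b1db_co.RationalTrees

open Polynomial

/-- The Wiener polynomial: the sum of `X ^ d(u, v)` over the unordered pairs `{u, v}` of distinct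
vertices. -/
noncomputable def wiener {V : Type} [Fintype V] (G : SimpleGraph V) : ℤ[X] :=
  open Classical in
  ∑ e : Sym2 V with ¬ e.IsDiag, X ^ (Sym2.lift ⟨G.dist, fun _ _ => G.dist_comm⟩ e)

theorem wiener_eq {V : Type} [Fintype V] (G : SimpleGraph V) :
    ∑ u, ∑ v, (X : ℤ[X]) ^ (G.dist u v) = C (Fintype.card V : ℤ) + 2 * wiener G := by
  classical
  have h1 : ∑ u, ∑ v, (X : ℤ[X]) ^ (G.dist u v) =
      ∑ p : V × V, (X : ℤ[X]) ^ (G.dist p.1 p.2) :=
    (Fintype.sum_prod_type' (fun u v => (X : ℤ[X]) ^ (G.dist u v))).symm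
  have h2 := Finset.sum_filter_add_sum_filter_not (Finset.univ : Finset (V × V))
    (fun p => p.1 = p.2) (fun p => (X : ℤ[X]) ^ (G.dist p.1 p.2))
  have h3 : ∑ p : V × V with p.1 = p.2, (X : ℤ[X]) ^ (G.dist p.1 p.2) =
      C (Fintype.card V : ℤ) := by
    have e1 : ∑ p : V × V with p.1 = p.2, (X : ℤ[X]) ^ (G.dist p.1 p.2) =
        ∑ p : V × V with p.1 = p.2, (1 : ℤ[X]) := by
      refine Finset.sum_congr rfl fun p hp => ?_
      rw [Finset.mem_filter] at hp
      rw [hp.2, SimpleGraph.dist_self, pow_zero]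
    rw [e1, Finset.sum_const]
    have e2 : (Finset.univ.filter fun p : V × V => p.1 = p.2) = Finset.univ.diag := by
      ext p
      simp
    rw [e2, Finset.diag_card, Finset.card_univ]
    simp
  have h4 : ∑ p : V × V with ¬ p.1 = p.2, (X : ℤ[X]) ^ (G.dist p.1 p.2) = 2 * wiener G := by
    unfold wiener
    rw [Finset.mul_sum]
    have e0 : ∀ p ∈ Finset.univ.filter (fun p : V × V => ¬ p.1 = p.2),
        s(p.1, p.2) ∈ Finset.univ.filter (fun e : Sym2 V => ¬ e.IsDiag) := by
      intro p hp
      simpa using hp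
    rw [← Finset.sum_fiberwise_of_maps_to e0]
    refine Finset.sum_congr rfl fun e he => ?_
    rw [Finset.mem_filter] at he
    induction e using Sym2.ind with
    | _ a b =>
      have hab : a ≠ b := by simpa using he.2
      have e1 : ((Finset.univ.filter (fun p : V × V => ¬ p.1 = p.2)).filter
          fun p => s(p.1, p.2) = s(a, b)) = {(a, b), (b, a)} := by
        ext ⟨x, y⟩
        simp only [Finset.mem_filter, Finset.mem_univ, true_and, Sym2.eq_iff,
          Finset.mem_insert, Finset.mem_singleton, Prod.mk.injEq]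
        constructor
        · rintro ⟨_, h⟩
          exact h
        · rintro (⟨rfl, rfl⟩ | ⟨rfl, rfl⟩)
          · exact ⟨hab, Or.inl ⟨rfl, rfl⟩⟩
          · exact ⟨hab.symm, Or.inr ⟨rfl, rfl⟩⟩
      rw [e1, Finset.sum_pair (by
        intro h
        rw [Prod.mk.injEq] at h
        exact hab h.1)]
      simp only [Sym2.lift_mk]
      rw [G.dist_comm (u := b) (v := a)]
      ring
  rw [h1, ← h2, h3, h4]

theorem result (D : ℕ) (hD : 4 ≤ D) (hE : Even D) :
    ∃ (V : Type) (_ : Fintype V) (G : SimpleGraph V), G.IsTree ∧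
      (∀ u v, G.dist u v ≤ D) ∧ (∃ u v, G.dist u v = D) ∧ wiener G ≠ 0 ∧
      ∀ z : ℂ, aeval z (wiener G) = 0 → ∃ q : ℚ, z = q := by
  classical
  obtain ⟨m, hm⟩ := hE
  obtain ⟨g, hg, rfl⟩ : ∃ g : ℕ, 1 ≤ g ∧ D = 2 * g + 2 := ⟨m - 1, by omega, by omega⟩
  obtain ⟨γ, σ, W, F, hT, ht, hd, hz⟩ := Pool.Agent.H37.WR.core g hg
  have hc := Pool.Agent.H37.WR.coeffs_T01 F
  obtain ⟨V, _, G, hG, hS⟩ := F.tr.tree hc.2
  rw [hT, wiener_eq] at hS
  have h2 : (2 : ℤ[X]) = C 2 := by simp
  have hk : ∀ k, 1 ≤ k → (wiener G).coeff k = W.coeff k := by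
    intro k hk
    have := congrArg (fun P => P.coeff k) hS
    simp only [h2, coeff_add, coeff_C_mul, coeff_C, if_neg (by omega : ¬ k = 0)] at this
    linarith
  have h0 : (wiener G).coeff 0 = 0 := by
    unfold wiener
    rw [finsetSum_coeff]
    refine Finset.sum_eq_zero fun e he => ?_
    rw [Finset.mem_filter] at he
    induction e using Sym2.ind with
    | _ a b =>
      have hab : a ≠ b := by simpa using he.2
      have := hG.connected.pos_dist_of_ne hab
      simp only [Sym2.lift_mk]
      rw [coeff_X_pow, if_neg this.ne]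
  have hW0 : W.coeff 0 = 0 := by
    have := hc.1
    rw [hT, coeff_add, h2, coeff_C_mul, coeff_C_zero] at this
    linarith
  have hW : wiener G = W := by
    ext k
    rcases Nat.eq_zero_or_pos k with rfl | hk'
    · rw [h0, hW0]
    · exact hk k hk'
  have hcnt : ∀ k, (wiener G).coeff k = ((Finset.univ.filter fun e : Sym2 V =>
      ¬ e.IsDiag ∧ k = Sym2.lift ⟨G.dist, fun _ _ => G.dist_comm⟩ e).card : ℤ) := by
    intro k
    unfold wiener
    rw [finsetSum_coeff]
    simp only [coeff_X_pow]
    rw [Finset.sum_ite, Finset.sum_const_zero, add_zero, Finset.filter_filter]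
    simp
  refine ⟨V, inferInstance, G, hG, fun u v => ?_, ?_, ?_, ?_⟩
  · by_contra hc'
    push Not at hc'
    have huv : u ≠ v := by
      rintro rfl
      simp at hc'
    have h3 := hcnt (G.dist u v)
    rw [hW, hd _ hc'] at h3
    have h4 : (Finset.univ.filter fun e : Sym2 V =>
      ¬ e.IsDiag ∧ G.dist u v = Sym2.lift ⟨G.dist, fun _ _ => G.dist_comm⟩ e).card = 0 := by
      exact_mod_cast h3.symm
    rw [Finset.card_eq_zero] at h4
    have h5 : s(u, v) ∈ (Finset.univ.filter fun e : Sym2 V =>
      ¬ e.IsDiag ∧ G.dist u v = Sym2.lift ⟨G.dist, fun _ _ => G.dist_comm⟩ e) := by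
      simp [huv]
    rw [h4] at h5
    simp at h5
  · have h3 := hcnt (2 * g + 2)
    rw [hW] at h3
    have h4 : 0 < (Finset.univ.filter fun e : Sym2 V =>
      ¬ e.IsDiag ∧ 2 * g + 2 = Sym2.lift ⟨G.dist, fun _ _ => G.dist_comm⟩ e).card := by
      rw [h3] at ht
      exact_mod_cast ht
    rw [Finset.card_pos] at h4
    obtain ⟨e, he⟩ := h4
    rw [Finset.mem_filter] at he
    induction e using Sym2.ind with
    | _ a b =>
      refine ⟨a, b, ?_⟩
      have := he.2.2
      rw [Sym2.lift_mk] at this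
      exact this.symm
  · intro h
    rw [← hW, h] at ht
    simp at ht
  · rw [hW]
    exact hz

end Pool.Agent.Results.MP_96b1db_co.RationalTrees
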